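import Mathlib
import Pool.Agent.Lib.MP_e79d62_co.Descent

set_option autoImplicit false

namespace Pool.Agent.Results.MP_e79d62_co.NeverMRD

open Pool.Agent.Lib.MP_e79d62_co

/-- For `q` even, every code `{a x + b (x^(q^s) + δ x^(q^(4+s)))}` over the field with `q^8`
elements contains a nonzero map of rank less than `7`, so it is not MRD. -/
theorem result (K F : Type) [Field K] [Fintype K] [CharP K 2] [Field F] [Algebra K F]
    (hF : Module.finrank K F = 8) (δ : F) (hδ : δ ≠ 0) (s : ℕ)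
    (hs : s = 1 ∨ s = 3 ∨ s = 5 ∨ s = 7) :
    ∃ (a b : F) (g : F →ₗ[K] F),
      (∀ x, g x = a * x + b * (x ^ Fintype.card K ^ s + δ * x ^ Fintype.card K ^ (4 + s))) ∧
      g ≠ 0 ∧ Module.finrank K (LinearMap.range g) < 7 := by
  have : FiniteDimensional K F := Module.finite_of_finrank_pos (by omega)
  have : Finite F := Module.finite_of_finite K
  have : Fintype F := Fintype.ofFinite F
  have : CharP F 2 := charP_of_injective_algebraMap (algebraMap K F).injective 2
  obtain ⟨n, -, hq⟩ := FiniteField.card K 2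
  have hcard : Fintype.card F = Fintype.card K ^ 8 := by
    rw [Module.card_eq_pow_finrank (K := K), hF]
  let φ := FiniteField.frobeniusAlgHom K F
  have hφ : ∀ x, φ x = x ^ Fintype.card K := fun _ => rfl
  have hord : orderOf φ = 8 := by rw [← hF]; exact FiniteField.orderOf_frobeniusAlgHom K F
  have hpow : ∀ (j : ℕ) x, (φ ^ j) x = x ^ Fintype.card K ^ j := by
    intro j x
    rw [AlgHom.coe_pow, FiniteField.coe_frobeniusAlgHom, pow_iterate]
  let ψ : F →+* F := φ
  have hψ : ∀ x, ψ x = φ x := fun _ => rfl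
  have h8 : ∀ x, ψ (ψ (ψ (ψ (ψ (ψ (ψ (ψ x))))))) = x := by
    intro x
    have := DFunLike.congr_fun (hord ▸ pow_orderOf_eq_one φ) x
    simpa [pow_succ, hψ] using this
  have h4 : ∃ y, ψ (ψ (ψ (ψ y))) ≠ y := by
    by_contra hcon
    push Not at hcon
    have h1 : φ ^ 4 = 1 := by
      ext x
      simpa [pow_succ, hψ] using hcon x
    have := orderOf_dvd_of_pow_eq_one h1
    rw [hord] at this
    norm_num at this
  have hsq : ∀ u : F, ∃ w, w ^ 2 = u := fun u =>
    Finite.surjective_of_injective (frobenius_inj F 2) u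
  have hR : ∀ β : F, ψ (ψ (ψ (ψ β))) = β → β ≠ 0 → RClaim ψ β := fun β h1 h2 =>
    rclaim_frob n.2 (by rw [hcard, hq]; rfl) ψ (fun x => by rw [hψ, hφ, hq]; rfl) h1 h2
  let τ : F →+* F := (φ ^ s : F →ₐ[K] F)
  have hτ : ∀ x, τ x = x ^ Fintype.card K ^ s := hpow s
  have hτ4 : ∀ x, τ (τ (τ (τ x))) = ψ (ψ (ψ (ψ x))) := by
    intro x
    rcases hs with rfl | rfl | rfl | rfl <;>
      simp only [τ, RingHom.coe_coe, pow_succ, pow_zero, one_mul, AlgHom.mul_apply, ← hψ, h8]
  have hτ5 : ∀ x, τ (τ (τ (τ (τ x)))) = x ^ Fintype.card K ^ (4 + s) := by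
    intro x
    rw [hτ4, ← hpow, pow_add, AlgHom.mul_apply]
    simp only [τ, RingHom.coe_coe, pow_succ, pow_zero, one_mul, AlgHom.mul_apply, ← hψ]
  obtain ⟨β, hβ⟩ : ∃ β, β = δ * ψ (ψ (ψ (ψ δ))) := ⟨_, rfl⟩
  have hβ4 : ψ (ψ (ψ (ψ β))) = β := by
    rw [hβ]; simp only [map_mul, h8]; ring
  have hβ0 : β ≠ 0 := by rw [hβ]; simpa using hδ
  have hRτ : RClaim τ β := by
    have r1 := hR β hβ4 hβ0
    have r5 := (hR β⁻¹ (by simp only [map_inv₀, hβ4]) (inv_ne_zero hβ0)).five h8 hβ4 hβ0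
    rcases hs with rfl | rfl | rfl | rfl
    · exact r1
    · let χ : F →+* F := ψ.comp (ψ.comp (ψ.comp (ψ.comp ψ)))
      have hχ : ∀ x, χ x = ψ (ψ (ψ (ψ (ψ x)))) := fun _ => rfl
      have r3 := RClaim.seven (τ := χ) (fun x => by simp only [hχ, h8])
        (by simp only [hχ, hβ4]) r5
      convert r3 using 1
      funext x
      simp only [hχ, h8]
      rfl
    · exact r5
    · exact r1.seven h8 hβ4
  obtain ⟨w, b, h⟩ := exists_nilp τ (fun x => by rw [hτ4, hτ4, h8])
    (by simpa only [hτ4] using h4) hsq hδ (by rwa [hτ4, ← hβ])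
  let g : F →ₗ[K] F := w • LinearMap.id + b • ((φ ^ s).toLinearMap + δ • (φ ^ (4 + s)).toLinearMap)
  have hg : ∀ x, g x =
      w * x + b * (x ^ Fintype.card K ^ s + δ * x ^ Fintype.card K ^ (4 + s)) := by
    intro x
    simp [g, hpow, mul_add]
  obtain ⟨h1, x, hx⟩ := h g (fun x => by rw [hg, hτ5, hτ])
  exact ⟨w, b, g, hg, fun h0 => hx (by rw [h0]; rfl), finrank_range_lt hF g h1⟩

end Pool.Agent.Results.MP_e79d62_co.NeverMRD
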